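import Pool.Agent.Helper98.GY.Stmts

/-!
A finite cover and a choice which is locally constant almost everywhere
(row CVR of the sheet GY; after Helper36/IZ/CVR.lean).
-/

open Filter MeasureTheory Topology

namespace Pool.Agent.Helper34.GY

/-- small balls with null frontier -/
theorem radius {Y : Type} [MetricSpace Y] [CompactSpace Y] [MeasurableSpace Y] [BorelSpace Y]
    (ν : Measure Y) [IsProbabilityMeasure ν] (O : Set Y) (hO : IsOpen O) (y : Y) (hy : y ∈ O) :
    ∃ s : ℝ, 0 < s ∧ Metric.ball y s ⊆ O ∧ ν (frontier (Metric.ball y s)) = 0 := by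
  obtain ⟨b, hb, hbO⟩ := Metric.isOpen_iff.1 hO y hy
  obtain ⟨s, hs, hs0⟩ := exists_null_frontier_thickening ν ({y} : Set Y) hb
  rw [Metric.thickening_singleton] at hs0
  exact ⟨s, hs.1, (Metric.ball_subset_ball hs.2.le).trans hbO, hs0⟩

/-- a point outside of the frontier of an open set is near points of the same side -/
theorem eventually_mem_iff {Y : Type*} [TopologicalSpace Y] {B : Set Y} {y : Y}
    (hy : y ∉ frontier B) : ∀ᶠ y' in 𝓝 y, (y' ∈ B ↔ y ∈ B) := by
  by_cases h : y ∈ interior B
  · filter_upwards [isOpen_interior.mem_nhds h] with y' hy'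
    exact ⟨fun _ => interior_subset h, fun _ => interior_subset hy'⟩
  · have h2 : y ∉ closure B := fun hc => hy ⟨hc, h⟩
    filter_upwards [isClosed_closure.isOpen_compl.mem_nhds h2] with y' hy'
    exact ⟨fun h' => absurd (subset_closure h') hy', fun h' => absurd (subset_closure h') h2⟩

theorem st_CVR : Pool.Agent.Helper98.GY.ST_CVR := by
  classical
  intro Y _ _ _ _ ν _ O hO
  choose s hs0 hsO hsf using fun y => radius ν (O y) (hO y).1 y (hO y).2
  obtain ⟨t, ht⟩ := isCompact_univ.elim_nhds_subcover (fun y => Metric.ball y (s y))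
    (fun y _ => Metric.ball_mem_nhds y (hs0 y))
  let c : Fin t.card → Y := fun j => (t.equivFin.symm j : Y)
  have hcov : ∀ y, ∃ j : Fin t.card, y ∈ Metric.ball (c j) (s (c j)) := by
    intro y
    have hy : y ∈ ⋃ x ∈ t, Metric.ball x (s x) := ht.2 (Set.mem_univ y)
    rw [Set.mem_iUnion₂] at hy
    obtain ⟨x, hx, hyx⟩ := hy
    refine ⟨t.equivFin ⟨x, hx⟩, ?_⟩
    have : c (t.equivFin ⟨x, hx⟩) = x := by
      simp [c]
    rw [this]
    exact hyx
  let J : Y → Finset (Fin t.card) := fun y =>
    Finset.univ.filter fun j => y ∈ Metric.ball (c j) (s (c j))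
  have hJ : ∀ y, (J y).Nonempty := by
    intro y
    obtain ⟨j, hj⟩ := hcov y
    exact ⟨j, Finset.mem_filter.2 ⟨Finset.mem_univ j, hj⟩⟩
  refine ⟨t.card, c, fun y => (J y).min' (hJ y), fun y => ?_, ?_⟩
  · have h := (Finset.mem_filter.1 ((J y).min'_mem (hJ y))).2
    exact hsO _ h
  · have h0 : ∀ᵐ y ∂ν, ∀ j : Fin t.card, y ∉ frontier (Metric.ball (c j) (s (c j))) := by
      rw [ae_all_iff]
      intro j
      exact measure_eq_zero_iff_ae_notMem.1 (hsf (c j))
    filter_upwards [h0] with y hy
    have h1 : ∀ᶠ y' in 𝓝 y, ∀ j : Fin t.card,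
        (y' ∈ Metric.ball (c j) (s (c j)) ↔ y ∈ Metric.ball (c j) (s (c j))) :=
      eventually_all.2 fun j => eventually_mem_iff (hy j)
    filter_upwards [h1] with y' hy'
    have h2 : J y' = J y := by
      apply Finset.filter_congr
      intro j _
      exact hy' j
    have h3 : ∀ A B : Finset (Fin t.card), A = B → ∀ (hA : A.Nonempty) (hB : B.Nonempty),
        A.min' hA = B.min' hB := by
      intro A B hAB hA hB
      subst hAB
      rfl
    exact h3 _ _ h2 _ _

end Pool.Agent.Helper34.GY
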