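import Pool.Agent.Helper98.GY.Stmts
import Pool.Agent.Helper36.IZ.CYC

/-!
The cocycle of a finite dimensional invariant space (row CYC of the sheet GY; after
Helper36/IZ/CYC.lean).
-/

set_option linter.unusedSectionVars false
set_option linter.deprecated false

open Filter MeasureTheory Topology
open scoped ComplexConjugate

namespace Pool.Agent.Helper34.GY

open Pool.Agent.Helper16.AZ (T E Op mm)
open Pool.Agent.Helper16.BZ (co)
open Pool.Agent.Helper98.GY
open Pool.Agent.Helper40.IZ (cf Fr HO ST_POL)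
open Pool.Agent.Helper36.IZY (fib_cont tS tS_eq tS_apply tS_within cf_continuous
  cf_comp_continuous HO_continuous HO_apply HO_equiv star_cont st1 st2)

/-- continuity at one point of a map which is given by compact fibres -/
theorem cont_of_fib {X M : Type} [MetricSpace X] [CompactSpace X] [MetricSpace M] [CompactSpace M]
    {Y Z : Type} [MetricSpace Y] [TopologicalSpace Z] {Θ : Y → Set C(M, X)}
    (hK : IsCompact {p : Y × C(M, X) | p.2 ∈ Θ p.1}) {A : Set C(M, X)} (hA : ∀ y, Θ y ⊆ A)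
    {θ₀ : Y → C(M, X)} (hθ₀ : ∀ y, θ₀ y ∈ Θ y) {Φ : Y → Z} {G : C(M, X) → Z} {y₀ : Y}
    (hΦ : ∀ᶠ y in 𝓝 y₀, Φ y = G (θ₀ y)) (hG0 : ∀ θ ∈ Θ y₀, G θ = Φ y₀)
    (hG : ∀ θ ∈ Θ y₀, ContinuousWithinAt G A θ) : ContinuousAt Φ y₀ := by
  intro N hN
  have h1 := fib_cont hK hA (fun θ hθ => ⟨hG0 θ hθ, hG θ hθ⟩) hN
  have h2 : ∀ᶠ y in 𝓝 y₀, Φ y ∈ N := by
    filter_upwards [h1, hΦ] with y hy hy2
    rw [hy2]
    exact hy _ (hθ₀ y)
  exact h2

theorem st_CYC (hF : ST_FRM) (hP : ST_POL) (hC : ST_CVR) : ST_CYC := by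
  intro X Y _ _ _ _ _ _ ν _ π S τ M _ _ _ _ μ _ Θ d e hM hFr hS hmp hτ
  obtain ⟨pol, hpol, hpolR⟩ := hP d
  choose h O hO hyO hunit using fun y₁ => hF X Y π S τ M μ Θ d e hM hFr y₁
  obtain ⟨n, c, i, hi, hiae⟩ := hC Y ν O (fun y => ⟨hO y, hyO y⟩)
  obtain ⟨hne, hinj, htr, hcl, hτΘ, hK⟩ := hM
  set u : Y → C(M, X) → Op d := fun y θ => pol (HO μ e (h (c (i y))) θ) with hu
  have hun : ∀ y, ∀ θ ∈ Θ y, IsUnit (HO μ e (h (c (i y))) θ) := fun y θ hθ =>
    hunit (c (i y)) y (hi y) θ hθ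
  have huu : ∀ y, ∀ θ ∈ Θ y, u y θ ∈ unitary (Op d) := fun y θ hθ => (hpol _ (hun y θ hθ)).1
  have huk : ∀ y, ∀ k : M ≃ᵢ M, ∀ R ∈ unitary (Op d),
      (∀ f : C(M, ℂ), cf μ e (fun m => f (k m)) = R (cf μ e f)) → ∀ θ θ' : C(M, X),
      (∀ m, θ' m = θ (k m)) → u y θ' = R * u y θ := by
    intro y k R hR hRf θ θ' hθ
    simp only [hu]
    rw [HO_equiv μ e (h (c (i y))) hRf hθ, hpolR R hR]
  choose θ₀ hθ₀ using hne
  choose τ' hτ'1 hτ'2 using hτΘ
  set φ : Y → Op d := fun y => star (u (S y) (τ' y (θ₀ y) (hθ₀ y))) * u y (θ₀ y) with hφ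
  -- independence of the choices
  have hφi : ∀ y, ∀ θ ∈ Θ y, ∀ θ' : C(M, X), (∀ m, θ' m = τ (θ m)) →
      star (u (S y) θ') * u y θ = φ y := by
    intro y θ hθ θ' hθ'
    obtain ⟨k, hk⟩ := htr y (θ₀ y) (hθ₀ y) θ hθ
    obtain ⟨R, hR, hRf⟩ := hFr.2 k
    have h1 := huk y k R hR hRf (θ₀ y) θ hk
    have h2 := huk (S y) k R hR hRf (τ' y (θ₀ y) (hθ₀ y)) θ' (fun m => by
      rw [hθ', hk, hτ'2])
    rw [h1, h2, star_mul, mul_assoc, ← mul_assoc (star R), st1 hR, one_mul]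
  have hφu : ∀ y, φ y ∈ unitary (Op d) := fun y =>
    mul_mem (Unitary.star_mem (huu _ _ (hτ'1 y _ _))) (huu _ _ (hθ₀ y))
  have hθc : ∀ y, Θ y ⊆ {θ : C(M, X) | Continuous fun m => τ (θ m)} := by
    intro y θ hθ
    have h1 : (fun m => τ (θ m)) = τ' y θ hθ := by
      funext m
      exact (hτ'2 y θ hθ m).symm
    show Continuous fun m => τ (θ m)
    rw [h1]
    exact (τ' y θ hθ).continuous
  have htS : ∀ y, ∀ θ (hθ : θ ∈ Θ y), tS τ θ = τ' y θ hθ := fun y θ hθ => tS_eq (hτ'2 y θ hθ)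
  refine ⟨φ, ⟨?_, hφu⟩, fun F => ?_⟩
  · have hi2 : ∀ᵐ y ∂ν, ∀ᶠ y' in 𝓝 (S y), i y' = i (S y) :=
      hmp.quasiMeasurePreserving.ae hiae
    have hτ2 : ∀ᵐ y ∂ν, ∀ x, π x = y → ContinuousAt τ x := hτ
    filter_upwards [hiae, hi2, hτ2] with y hy1 hy2 hy3
    refine cont_of_fib (G := fun θ => star (pol (HO μ e (h (c (i (S y)))) (tS τ θ))) *
      pol (HO μ e (h (c (i y))) θ)) hK hθc hθ₀ ?_ ?_ ?_
    · filter_upwards [hy1, hS.continuousAt.eventually hy2] with y' h1 h2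
      simp only [hφ, hu]
      rw [h1, h2, htS y' (θ₀ y') (hθ₀ y')]
    · intro θ hθ
      exact hφi y θ hθ (tS τ θ) (tS_apply (hθc y hθ))
    · intro θ hθ
      have h1 : ContinuousWithinAt (tS τ) {θ : C(M, X) | Continuous fun m => τ (θ m)} θ :=
        tS_within (hθc y hθ) fun m => hy3 _ (((hinj y θ hθ).2 _).2 ⟨m, rfl⟩)
      have h2 : ContinuousWithinAt (fun θ => HO μ e (h (c (i (S y)))) (tS τ θ))
          {θ : C(M, X) | Continuous fun m => τ (θ m)} θ :=
        (HO_continuous μ e (h (c (i (S y))))).continuousAt.comp_continuousWithinAt h1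
      have h3 : ContinuousAt pol (HO μ e (h (c (i (S y)))) (tS τ θ)) := by
        rw [htS y θ hθ]
        exact (hpol _ (hun (S y) _ (hτ'1 y θ hθ))).2
      have h4 : ContinuousAt pol (HO μ e (h (c (i y))) θ) := (hpol _ (hun y θ hθ)).2
      have h5 : ContinuousWithinAt (fun θ => pol (HO μ e (h (c (i (S y)))) (tS τ θ)))
          {θ : C(M, X) | Continuous fun m => τ (θ m)} θ :=
        ContinuousAt.comp_continuousWithinAt (g := pol) h3 h2
      have h6 : ContinuousWithinAt (fun θ => pol (HO μ e (h (c (i y))) θ))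
          {θ : C(M, X) | Continuous fun m => τ (θ m)} θ :=
        ContinuousAt.comp_continuousWithinAt (g := pol) h4
          (HO_continuous μ e (h (c (i y)))).continuousWithinAt
      exact (star_cont.continuousAt.comp_continuousWithinAt h5).mul h6
  -- the functions
  set f : Y → E d := fun y => star (u y (θ₀ y)) (cf μ e fun m => F (θ₀ y m)) with hf
  have hfi : ∀ y, ∀ θ ∈ Θ y, star (u y θ) (cf μ e fun m => F (θ m)) = f y := by
    intro y θ hθ
    obtain ⟨k, hk⟩ := htr y (θ₀ y) (hθ₀ y) θ hθ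
    obtain ⟨R, hR, hRf⟩ := hFr.2 k
    have h1 := huk y k R hR hRf (θ₀ y) θ hk
    have h2 : cf μ e (fun m => F (θ m)) = R (cf μ e fun m => F (θ₀ y m)) := by
      have h3 := hRf (F.comp (θ₀ y))
      have h4 : (fun m => F (θ m)) = fun m => (F.comp (θ₀ y)) (k m) := by
        funext m
        rw [hk]
        rfl
      rw [h4, h3]
      rfl
    rw [h1, h2, star_mul, ← ContinuousLinearMap.mul_apply, mul_assoc, st1 hR, mul_one]
  have hfu : ∀ y, ∀ θ ∈ Θ y, u y θ (f y) = cf μ e fun m => F (θ m) := by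
    intro y θ hθ
    rw [← hfi y θ hθ, ← ContinuousLinearMap.mul_apply, st2 (huu y θ hθ)]
    rfl
  refine ⟨f, ⟨?_, ?_⟩, ?_⟩
  · filter_upwards [hiae] with y hy1
    refine cont_of_fib (A := Set.univ) (G := fun θ => star (pol (HO μ e (h (c (i y))) θ))
      (cf μ e fun m => F (θ m))) hK (fun y => Set.subset_univ _) hθ₀ ?_ ?_ ?_
    · filter_upwards [hy1] with y' h1
      simp only [hf, hu]
      rw [h1]
    · intro θ hθ
      exact hfi y θ hθ
    · intro θ hθ
      have h4 : ContinuousAt pol (HO μ e (h (c (i y))) θ) := (hpol _ (hun y θ hθ)).2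
      have h6 : ContinuousAt (fun θ => pol (HO μ e (h (c (i y))) θ)) θ :=
        ContinuousAt.comp (g := pol) h4 (HO_continuous μ e (h (c (i y)))).continuousAt
      exact ((star_cont.continuousAt.comp h6).clm_apply
        (cf_comp_continuous μ e F).continuousAt).continuousWithinAt
  · have h1 : IsCompact (Prod.snd '' {p : Y × C(M, X) | p.2 ∈ Θ p.1}) :=
      hK.image continuous_snd
    obtain ⟨C, hC⟩ := (h1.image (cf_comp_continuous μ e F)).isBounded.exists_norm_le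
    refine ⟨C, fun y => ?_⟩
    have h2 := hC _ ⟨θ₀ y, ⟨(y, θ₀ y), hθ₀ y, rfl⟩, rfl⟩
    have h3 : ‖f y‖ = ‖cf μ e fun m => F (θ₀ y m)‖ := by
      have h4 := Pool.Agent.Helper16.AZ.unitary_norm (huu y _ (hθ₀ y)) (f y)
      rw [hfu y _ (hθ₀ y)] at h4
      exact h4.symm
    rw [h3]
    exact h2
  · intro y θ hθ
    refine ⟨u y θ, huu y θ hθ, fun n => ?_⟩
    have key : ∀ n : ℕ, ∃ θn ∈ Θ (S^[n] y), (∀ m, θn m = τ^[n] (θ m)) ∧
        u (S^[n] y) θn = u y θ * star (co S φ n y) := by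
      intro n
      induction n with
      | zero =>
        refine ⟨θ, hθ, fun m => rfl, ?_⟩
        rw [Pool.Agent.Helper16.BZ.co_zero, star_one, mul_one]
        rfl
      | succ n ih =>
        obtain ⟨θn, hn1, hn2, hn3⟩ := ih
        refine ⟨τ' _ θn hn1, ?_, fun m => ?_, ?_⟩
        · rw [Function.iterate_succ_apply']
          exact hτ'1 _ θn hn1
        · rw [hτ'2, hn2, Function.iterate_succ_apply']
        · rw [Pool.Agent.Helper16.BZ.co_succ, star_mul, ← mul_assoc, ← hn3,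
            ← hφi (S^[n] y) θn hn1 (τ' _ θn hn1) (hτ'2 _ θn hn1), star_mul, star_star,
            ← mul_assoc, st2 (huu _ θn hn1), one_mul, Function.iterate_succ_apply']
    obtain ⟨θn, hn1, hn2, hn3⟩ := key n
    have h1 : (fun m => F (τ^[n] (θ m))) = fun m => F (θn m) := by
      funext m
      rw [hn2]
    rw [h1, ← hfu _ θn hn1, hn3]
    rfl

end Pool.Agent.Helper34.GY
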